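import Pool.Agent.N977.P.Stm

/-!
The bounds of the perturbation with the supremum norm.
-/

open MeasureTheory Set Filter Topology
open scoped ContDiff ComplexConjugate

namespace Pool.Agent.N42.NSP

open H459R3.NS Pool.Agent.N977.Q Pool.Agent.N977.S Pool.Agent.N977.P

variable {J : ℕ → ℕ} {G : Fin 2 → ℕ → K3 → ℝ} {α μ : ℕ → ℝ} {u v w : V → V}

/-- the support of a packet -/
noncomputable def su (h : Pk J G) (e : Fin 2) (n : ℕ) : Finset K3 := (h.fin e n).toFinset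

theorem mem_su (h : Pk J G) {e : Fin 2} {n : ℕ} {k : K3} : k ∈ su h e n ↔ G e n k ≠ 0 := by
  simp [su]

theorem not_su (h : Pk J G) {e : Fin 2} {n : ℕ} {k : K3} (hk : k ∉ su h e n) : G e n k = 0 := by
  by_contra hc
  exact hk ((mem_su h).2 hc)

theorem Xf_eq (h : Pk J G) (e : Fin 2) (n : ℕ) (x : V) :
    Xf (G e n) x = ∑ k ∈ su h e n, G e n k * Real.cos (2 * Real.pi * ph k x) := by
  unfold Xf
  refine tsum_eq_sum fun k hk => ?_
  rw [not_su h hk, zero_mul]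

theorem am_eq (h : Pk J G) (e : Fin 2) (n : ℕ) (u : V → V) :
    am (G e n) u = ∑ k ∈ su h e n, G e n k * (fr (fun x => u x 2) k).re := by
  unfold am
  refine tsum_eq_sum fun k hk => ?_
  rw [not_su h hk, zero_mul]

theorem sq_eq (h : Pk J G) (e : Fin 2) (n : ℕ) : ∑ k ∈ su h e n, |G e n k| ^ 2 = 1 := by
  rw [← h.sq e n, tsum_eq_sum (s := su h e n) fun k hk => by rw [not_su h hk]; simp]
  exact Finset.sum_congr rfl fun k _ => sq_abs _

theorem cos_cont (k : K3) : Continuous fun x : V => Real.cos (2 * Real.pi * ph k x) :=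
  Real.continuous_cos.comp (continuous_const.mul (H459R3.NS.ph_contDiff k (n := 0)).continuous)

theorem Xf_cont (h : Pk J G) (e : Fin 2) (n : ℕ) : Continuous (Xf (G e n)) := by
  rw [show Xf (G e n) = fun x => ∑ k ∈ su h e n, G e n k * Real.cos (2 * Real.pi * ph k x) from
    funext (Xf_eq h e n)]
  exact continuous_finsetSum _ fun k _ => continuous_const.mul (cos_cont k)

theorem int_Xf (h : Pk J G) (e : Fin 2) (n : ℕ) {f : V → ℝ} (hf : Continuous f) :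
    ∫ x in cube, Xf (G e n) x * f x = ∑ k ∈ su h e n, G e n k * (fr f k).re := by
  have h1 : (fun x => Xf (G e n) x * f x) = fun x =>
      ∑ k ∈ su h e n, G e n k * (Real.cos (2 * Real.pi * ph k x) * f x) := by
    funext x
    rw [Xf_eq h, Finset.sum_mul]
    exact Finset.sum_congr rfl fun k _ => by ring
  rw [h1, integral_finsetSum]
  · refine Finset.sum_congr rfl fun k _ => ?_
    rw [integral_const_mul, fr_re hf]
  · intro k _
    exact integrableOn_cube (continuous_const.mul ((cos_cont k).mul hf))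

theorem am_int (h : Pk J G) (e : Fin 2) (n : ℕ) (hu : SPV u) :
    ∫ x in cube, Xf (G e n) x * u x 2 = am (G e n) u := by
  rw [int_Xf h e n (f := fun x => u x 2) (spv_sp hu 2).cont, am_eq h]

theorem B_nonneg {B : ℝ} (hB : ∀ x i, |u x i| ≤ B) : 0 ≤ B := (abs_nonneg _).trans (hB 0 0)

theorem J_pos (h : Pk J G) (n : ℕ) : (0 : ℝ) < J n := by
  have := h.J1 n
  exact_mod_cast this

/-- the bound with the supremum norm -/
theorem am_sup (h : Pk J G) (e : Fin 2) (n : ℕ) (hu : SPV u) {B : ℝ} (hB : ∀ x i, |u x i| ≤ B) :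
    |am (G e n) u| ≤ 3 * B / J n := by
  have hB0 := B_nonneg hB
  rw [← am_int h e n hu]
  have hc := Xf_cont h e n
  have hc2 : Continuous fun x => u x 2 := (spv_sp hu 2).cont
  calc |∫ x in cube, Xf (G e n) x * u x 2| ≤ ∫ x in cube, |Xf (G e n) x * u x 2| :=
        abs_integral_le_integral_abs
    _ ≤ ∫ x in cube, |Xf (G e n) x| * B := by
        refine integral_mono (integrableOn_cube (hc.mul hc2).abs)
          (integrableOn_cube (hc.abs.mul continuous_const)) fun x => ?_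
        show |Xf (G e n) x * u x 2| ≤ |Xf (G e n) x| * B
        rw [abs_mul]
        exact mul_le_mul_of_nonneg_left (hB x 2) (abs_nonneg _)
    _ = (∫ x in cube, |Xf (G e n) x|) * B := integral_mul_const _ _
    _ ≤ 3 / J n * B := mul_le_mul_of_nonneg_right (h.L1 e n) hB0
    _ = 3 * B / J n := by ring

theorem am_sup' (h : Pk J G) (e : Fin 2) (n : ℕ) {j : ℕ} (hj : j ≤ 1) (hu : SPV u) {B : ℝ}
    (hB : ∀ x i, |u x i| ≤ B) : |am (G e (n + j)) u| ≤ 3 * B / J n := by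
  have hB0 := B_nonneg hB
  refine (am_sup h e (n + j) hu hB).trans ?_
  have h1 : J n ≤ J (n + j) := by
    interval_cases j
    · exact le_rfl
    · exact h.mono n
  have h2 : (J n : ℝ) ≤ J (n + j) := by exact_mod_cast h1
  exact div_le_div_of_nonneg_left (by positivity) (J_pos h n) h2

/-! ### the weights -/

theorem lev' {M : ℕ} (hM : 3 ≤ M) {k : K3} (h1 : (M : ℝ) ≤ len k) (h5 : len k ≤ 5 * M) (s : ℝ)
    {a : ℝ} (ha : 0 ≤ a) : (M : ℝ) ^ s * Real.log M ^ a ≤ 5 ^ |s| * wt s a k := by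
  have hM3 : (3 : ℝ) ≤ M := by exact_mod_cast hM
  have hM0 : (0 : ℝ) < M := by linarith
  have hlog := one_le_log hM
  have hk : k ≠ 0 := by
    rintro rfl
    have : len 0 = 0 := by simp [len]
    linarith
  unfold Pool.Agent.N977.Q.wt
  rw [if_neg hk]
  have e1 := len_rpow_ge (x := len k / M) (by rw [le_div_iff₀ hM0]; linarith)
    (by rw [div_le_iff₀ hM0]; linarith) s
  have e2 : Real.log M ^ a ≤ Real.log (2 + len k) ^ a := by
    apply Real.rpow_le_rpow (by linarith) _ ha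
    apply Real.log_le_log (by linarith)
    linarith
  have e3 : len k ^ s = (M : ℝ) ^ s * (len k / M) ^ s := by
    rw [← Real.mul_rpow hM0.le (div_nonneg (len_nonneg k) hM0.le)]
    congr 1
    field_simp
  have hp : 0 ≤ (M : ℝ) ^ s := by positivity
  have hq : 0 ≤ Real.log M ^ a := by positivity
  have hr : 0 ≤ (len k / M) ^ s := by
    have : 0 ≤ len k := len_nonneg k
    positivity
  calc (M : ℝ) ^ s * Real.log M ^ a ≤ (M : ℝ) ^ s * (5 ^ |s| * (len k / M) ^ s) * Real.log M ^ a := by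
        apply mul_le_mul_of_nonneg_right _ hq
        exact le_mul_of_one_le_right hp e1
    _ ≤ (M : ℝ) ^ s * (5 ^ |s| * (len k / M) ^ s) * Real.log (2 + len k) ^ a := by
        apply mul_le_mul_of_nonneg_left e2
        positivity
    _ = _ := by rw [e3]; ring

theorem len_dv (e : Fin 2) : 4 ≤ len (dv e) ^ 2 ∧ len (dv e) ^ 2 ≤ 5 := by
  unfold len
  rw [Real.sq_sqrt (Finset.sum_nonneg fun j _ => sq_nonneg _), Fin.sum_univ_three]
  fin_cases e <;> simp [dv, ev] <;> norm_num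

theorem len_su (h : Pk J G) {e : Fin 2} {n j : ℕ} (hj : j ≤ 1) {k : K3} (hk : k ∈ su h e (n + j)) :
    (Mn 8 n : ℝ) ≤ len k ∧ len k ≤ 5 * Mn 8 n := by
  have h1 := h.near e (n + j) k ((mem_su h).1 hk)
  have h2 := h.J2 (n + j)
  obtain ⟨h3, h4⟩ := len_dv e
  have hM0 : (0 : ℝ) < Mn 8 n := by exact_mod_cast Mn_pos (by norm_num) n
  set M' : ℝ := (Mn 8 (n + j) : ℝ) with hM'
  have h5 : (Mn 8 n : ℝ) ≤ M' ∧ M' ≤ 2 * Mn 8 n := by
    rw [hM']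
    interval_cases j
    · constructor
      · exact le_rfl
      · simp only [add_zero]; linarith
    · have : (Mn 8 (n + 1) : ℝ) = 2 * Mn 8 n := by
        unfold Mn; push_cast; ring
      rw [this]
      constructor
      · linarith
      · exact le_rfl
  have hM1 : 0 < M' := by linarith [h5.1]
  have h6 : len (qq e (n + j)) ^ 2 = M' ^ 2 * len (dv e) ^ 2 := by
    unfold qq
    rw [len_smul, mul_pow]
  have h7 : 7 * (M' * ((J (n + j) : ℝ) - 1)) ≤ 7 / 1000 * M' ^ 2 := by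
    nlinarith
  rw [h6] at h1
  obtain ⟨h8, h9⟩ := abs_le.1 (h1.trans h7)
  have h10 := len_nonneg k
  have hM2 : 0 < M' ^ 2 := by positivity
  have h11 : M' ^ 2 * 4 ≤ M' ^ 2 * len (dv e) ^ 2 := mul_le_mul_of_nonneg_left h3 hM2.le
  have h12 : M' ^ 2 * len (dv e) ^ 2 ≤ M' ^ 2 * 5 := mul_le_mul_of_nonneg_left h4 hM2.le
  constructor
  · apply le_of_sq_le_sq _ h10
    have : (Mn 8 n : ℝ) ^ 2 ≤ M' ^ 2 := pow_le_pow_left₀ hM0.le h5.1 2
    linarith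
  · apply le_of_sq_le_sq _ (by positivity)
    have : M' ^ 2 ≤ (2 * (Mn 8 n : ℝ)) ^ 2 := pow_le_pow_left₀ hM1.le h5.2 2
    nlinarith
where
  le_of_sq_le_sq {a b : ℝ} (h : a ^ 2 ≤ b ^ 2) (hb : 0 ≤ b) : a ≤ b := abs_le_of_sq_le_sq' h hb |>.2

/-- the weights of the levels -/
noncomputable def wn (s a : ℝ) (n : ℕ) : ℝ := (Mn 8 n : ℝ) ^ s * Real.log (Mn 8 n) ^ a

theorem three_le (n : ℕ) : 3 ≤ Mn 8 n := by
  unfold Mn
  have : 1 ≤ 2 ^ n := Nat.one_le_two_pow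
  omega

theorem wn_nonneg (s a : ℝ) (n : ℕ) : 0 ≤ wn s a n := by
  unfold wn
  have := one_le_log (three_le n)
  positivity

theorem wn_mul {s₁ s₂ σ a₁ a₂ p : ℝ} (hs : s₁ + s₂ = σ) (ha : a₁ + a₂ = p) (n : ℕ) :
    (Mn 8 n : ℝ) ^ σ * Real.log (Mn 8 n) ^ p = wn s₁ a₁ n * wn s₂ a₂ n := by
  have hM : (0 : ℝ) < Mn 8 n := by exact_mod_cast Mn_pos (by norm_num) n
  have hL := one_le_log (three_le n)
  unfold wn
  rw [← hs, ← ha, Real.rpow_add hM, Real.rpow_add (by linarith)]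
  ring

/-- the `l²` norm on a packet -/
noncomputable def Rn (h : Pk J G) (s a : ℝ) (v : V → V) (e : Fin 2) (n : ℕ) : ℝ :=
  √(∑ k ∈ su h e n, (wt s a k * un v k) ^ 2)

theorem am_wn (h : Pk J G) (s : ℝ) {a : ℝ} (ha : 0 ≤ a) (v : V → V) (e : Fin 2) (n : ℕ) {j : ℕ}
    (hj : j ≤ 1) : wn s a n * |am (G e (n + j)) v| ≤ 5 ^ |s| * Rn h s a v e (n + j) := by
  have h1 : |am (G e (n + j)) v| ≤ ∑ k ∈ su h e (n + j), |G e (n + j) k| * un v k := by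
    rw [am_eq h]
    refine (Finset.abs_sum_le_sum_abs _ _).trans (Finset.sum_le_sum fun k _ => ?_)
    rw [abs_mul]
    exact mul_le_mul_of_nonneg_left ((Complex.abs_re_le_norm _).trans (fr_le_un v k 2))
      (abs_nonneg _)
  have h2 : wn s a n * ∑ k ∈ su h e (n + j), |G e (n + j) k| * un v k
      ≤ 5 ^ |s| * ∑ k ∈ su h e (n + j), |G e (n + j) k| * (wt s a k * un v k) := by
    rw [Finset.mul_sum, Finset.mul_sum]
    refine Finset.sum_le_sum fun k hk => ?_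
    obtain ⟨a1, a2⟩ := len_su h hj hk
    have h3 := lev' (three_le n) a1 a2 s ha
    have h4 : wn s a n ≤ 5 ^ |s| * wt s a k := h3
    have h5 : 0 ≤ |G e (n + j) k| * un v k := mul_nonneg (abs_nonneg _) (un_nonneg _ _)
    calc _ ≤ (5 ^ |s| * wt s a k) * (|G e (n + j) k| * un v k) :=
          mul_le_mul_of_nonneg_right h4 h5
      _ = _ := by ring
  have h3 := Real.sum_mul_le_sqrt_mul_sqrt (su h e (n + j)) (fun k => |G e (n + j) k|)
    (fun k => wt s a k * un v k)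
  rw [sq_eq h, Real.sqrt_one, one_mul] at h3
  calc _ ≤ wn s a n * ∑ k ∈ su h e (n + j), |G e (n + j) k| * un v k :=
        mul_le_mul_of_nonneg_left h1 (wn_nonneg s a n)
    _ ≤ _ := h2
    _ ≤ _ := mul_le_mul_of_nonneg_left h3 (by positivity)

theorem Rn_sum (h : Pk J G) (s a : ℝ) (hv : SPV v) (e : Fin 2) (j : ℕ) (m : ℕ) :
    ∑ n ∈ Finset.range m, Rn h s a v e (n + j) ^ 2 ≤ Hn s a v ^ 2 := by
  classical
  have h1 : ∀ n, Rn h s a v e (n + j) ^ 2 = ∑ k ∈ su h e (n + j), (wt s a k * un v k) ^ 2 :=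
    fun n => Real.sq_sqrt (Finset.sum_nonneg fun k _ => sq_nonneg _)
  rw [Finset.sum_congr rfl fun n _ => h1 n, ← Finset.sum_biUnion, Hn_sq_un]
  · exact (wun_summable hv s a).sum_le_tsum _ fun k _ => sq_nonneg _
  · intro n _ n' _ hn
    refine Finset.disjoint_left.2 fun k hk hk' => hn ?_
    have := (h.disj e (n + j) e (n' + j) k ((mem_su h).1 hk) ((mem_su h).1 hk')).2
    omega

/-- the weighted sequences are square summable -/
theorem am_l2 (h : Pk J G) (s : ℝ) {a : ℝ} (ha : 0 ≤ a) (hv : SPV v) (e : Fin 2) {j : ℕ}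
    (hj : j ≤ 1) :
    Summable (fun n => (wn s a n * |am (G e (n + j)) v|) ^ 2) ∧
    ∑' n, (wn s a n * |am (G e (n + j)) v|) ^ 2 ≤ (5 ^ |s| * Hn s a v) ^ 2 := by
  have h0 : ∀ n, 0 ≤ (wn s a n * |am (G e (n + j)) v|) ^ 2 := fun n => sq_nonneg _
  have h1 : ∀ m, ∑ n ∈ Finset.range m, (wn s a n * |am (G e (n + j)) v|) ^ 2
      ≤ (5 ^ |s| * Hn s a v) ^ 2 := by
    intro m
    calc _ ≤ ∑ n ∈ Finset.range m, (5 ^ |s| * Rn h s a v e (n + j)) ^ 2 :=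
          Finset.sum_le_sum fun n _ => pow_le_pow_left₀
            (mul_nonneg (wn_nonneg s a n) (abs_nonneg _)) (am_wn h s ha v e n hj) 2
      _ = (5 ^ |s|) ^ 2 * ∑ n ∈ Finset.range m, Rn h s a v e (n + j) ^ 2 := by
          rw [Finset.mul_sum]
          exact Finset.sum_congr rfl fun n _ => by ring
      _ ≤ (5 ^ |s|) ^ 2 * Hn s a v ^ 2 :=
          mul_le_mul_of_nonneg_left (Rn_sum h s a hv e j m) (by positivity)
      _ = _ := by ring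
  exact ⟨summable_of_sum_range_le h0 h1, Real.tsum_le_of_sum_range_le h0 h1⟩

/-- the trilinear sums -/
theorem tri {g : ℝ} (hg : 0 ≤ g) {B : ℝ} (hB : 0 ≤ B) {σ p s₁ s₂ a₁ a₂ : ℝ} (hJ : ∀ n, (0 : ℝ) < J n)
    (hs : s₁ + s₂ = σ) (ha : a₁ + a₂ = p) {γ A b c : ℕ → ℝ}
    (hγ : ∀ n, |γ n| ≤ g * (J n * ((Mn 8 n : ℝ) ^ σ * Real.log (Mn 8 n) ^ p)))
    (hA : ∀ n, |A n| ≤ 3 * B / J n) {H₁ H₂ : ℝ} (hH₁ : 0 ≤ H₁) (hH₂ : 0 ≤ H₂)
    (hb : Summable (fun n => (wn s₁ a₁ n * |b n|) ^ 2) ∧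
      ∑' n, (wn s₁ a₁ n * |b n|) ^ 2 ≤ (5 ^ |s₁| * H₁) ^ 2)
    (hc : Summable (fun n => (wn s₂ a₂ n * |c n|) ^ 2) ∧
      ∑' n, (wn s₂ a₂ n * |c n|) ^ 2 ≤ (5 ^ |s₂| * H₂) ^ 2) {t : ℕ → ℝ}
    (ht : ∀ n, t n = γ n * (A n * (b n * c n))) :
    Summable t ∧ |∑' n, t n| ≤ 3 * g * 5 ^ (|s₁| + |s₂|) * (B * H₁ * H₂) := by
  obtain ⟨k1, k2⟩ := cs3 (A := fun _ => 3 * g * B) (B := fun n => wn s₁ a₁ n * |b n|)
    (C := fun n => wn s₂ a₂ n * |c n|) (a := 3 * g * B) (b := 5 ^ |s₁| * H₁) (c := 5 ^ |s₂| * H₂)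
    (by positivity) (by positivity) (by positivity)
    (fun n => (abs_of_nonneg (by positivity : (0 : ℝ) ≤ 3 * g * B)).le) hb.1 hb.2 hc.1 hc.2
  have key : ∀ n, |t n| ≤ |3 * g * B * (wn s₁ a₁ n * |b n|) * (wn s₂ a₂ n * |c n|)| := by
    intro n
    have w1 := wn_nonneg s₁ a₁ n
    have w2 := wn_nonneg s₂ a₂ n
    rw [abs_of_nonneg (by positivity :
      0 ≤ 3 * g * B * (wn s₁ a₁ n * |b n|) * (wn s₂ a₂ n * |c n|)), ht n, abs_mul, abs_mul, abs_mul]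
    have hJn := hJ n
    have h1 := hγ n
    rw [wn_mul hs ha] at h1
    calc |γ n| * (|A n| * (|b n| * |c n|))
        ≤ (g * (J n * (wn s₁ a₁ n * wn s₂ a₂ n))) * ((3 * B / J n) * (|b n| * |c n|)) :=
          mul_le_mul h1 (mul_le_mul_of_nonneg_right (hA n) (by positivity)) (by positivity)
            (by positivity)
      _ = _ := by field_simp
  have hs1 : Summable t := by
    refine Summable.of_norm_bounded k1 fun n => ?_
    rw [Real.norm_eq_abs]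
    exact key n
  refine ⟨hs1, ?_⟩
  have h2 : ‖∑' n, t n‖ ≤ _ := tsum_of_norm_bounded k1.hasSum (fun n => by
    rw [Real.norm_eq_abs]; exact key n)
  rw [Real.norm_eq_abs] at h2
  refine (h2.trans k2).trans (le_of_eq ?_)
  rw [Real.rpow_add (by norm_num)]
  ring

/-- the terms -/
noncomputable def tt (G : Fin 2 → ℕ → K3 → ℝ) (γ : ℕ → ℝ) (u v w : V → V) (e₁ e₂ e₃ : Fin 2)
    (j₁ j₂ j₃ n : ℕ) : ℝ :=
  γ n * (am (G e₁ (n + j₁)) u * (am (G e₂ (n + j₂)) v * am (G e₃ (n + j₃)) w))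

theorem KP_int (G : Fin 2 → ℕ → K3 → ℝ) (α μ : ℕ → ℝ) (u v w : V → V) :
    (∑ i, ∫ x in cube, KP G α μ u v x i * w x i) = ∫ x in cube, kp G α μ u v x * w x 2 := by
  rw [Fin.sum_univ_three]
  have h0 : ∀ i : Fin 3, i ≠ 2 → ∫ x in cube, KP G α μ u v x i * w x i = 0 := by
    intro i hi
    have h1 : (fun x => KP G α μ u v x i * w x i) = fun _ => 0 := by
      funext x
      unfold KP
      rw [if_neg hi, zero_mul]
    rw [h1, integral_zero]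
  rw [h0 0 (by decide), h0 1 (by decide), zero_add, zero_add]
  have h2 : (fun x => KP G α μ u v x 2 * w x 2) = fun x => kp G α μ u v x * w x 2 := by
    funext x
    unfold KP
    rw [if_pos rfl]
  rw [h2]

theorem tri_bound (hO : S_OP) (h : Pk J G) (hG : Ga 8 α μ) (hu : SPV u) (hv : SPV v) (hw : SPV w)
    {K : ℝ}
    (hα : ∀ e₁ e₂ e₃ j₁ j₂ j₃, j₁ ≤ 1 → j₂ ≤ 1 → j₃ ≤ 1 →
      Summable (tt G α u v w e₁ e₂ e₃ j₁ j₂ j₃) ∧ |∑' n, tt G α u v w e₁ e₂ e₃ j₁ j₂ j₃ n| ≤ K)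
    (hμ : ∀ e₁ e₂ e₃ j₁ j₂ j₃, j₁ ≤ 1 → j₂ ≤ 1 → j₃ ≤ 1 →
      Summable (tt G μ u v w e₁ e₂ e₃ j₁ j₂ j₃) ∧ |∑' n, tt G μ u v w e₁ e₂ e₃ j₁ j₂ j₃ n| ≤ K) :
    |∑ i, ∫ x in cube, KP G α μ u v x i * w x i| ≤ 6 * K := by
  rw [KP_int]
  have h1 := (hO J G α μ h hG).2.1 u v hu hv (fun x => w x 2) (spv_sp hw 2).cont
  have h2 : HasSum (fun n => cXp G α u v n * am (G 0 n) w + cYp G α μ u v n * am (G 1 n) w)
      (∫ x in cube, kp G α μ u v x * w x 2) := by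
    refine hs_congr' h1 fun n => ?_
    rw [am_int h 0 n hw, am_int h 1 n hw]
  obtain ⟨x1, y1⟩ := hα 1 1 0 0 0 1 (by norm_num) (by norm_num) (by norm_num)
  obtain ⟨x2, y2⟩ := hα 1 1 0 0 0 0 (by norm_num) (by norm_num) (by norm_num)
  obtain ⟨x3, y3⟩ := hα 1 0 1 0 1 0 (by norm_num) (by norm_num) (by norm_num)
  obtain ⟨x4, y4⟩ := hα 1 0 1 0 0 0 (by norm_num) (by norm_num) (by norm_num)
  obtain ⟨x5, y5⟩ := hμ 1 1 1 0 0 1 (by norm_num) (by norm_num) (by norm_num)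
  obtain ⟨x6, y6⟩ := hμ 1 1 1 0 1 0 (by norm_num) (by norm_num) (by norm_num)
  have e1 : (tt G α u v w 1 1 0 0 0 1) = fun n => (α n * (am (G 1 n) u * am (G 1 n) v))
      * am (G 0 (n + 1)) w := by
    funext n; simp only [tt, add_zero]; ring
  have e5 : (tt G μ u v w 1 1 1 0 0 1) = fun n => (μ n * (am (G 1 n) u * am (G 1 n) v))
      * am (G 1 (n + 1)) w := by
    funext n; simp only [tt, add_zero]; ring
  rw [e1] at x1 y1
  rw [e5] at x5 y5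
  have z1 := sh_sum (A := fun n => α n * (am (G 1 n) u * am (G 1 n) v))
    (g := fun n => am (G 0 n) w) x1
  have z5 := sh_sum (A := fun n => μ n * (am (G 1 n) u * am (G 1 n) v))
    (g := fun n => am (G 1 n) w) x5
  have h3 := (((((z1.sub x2.hasSum).sub x3.hasSum).add x4.hasSum).add z5).sub x6.hasSum)
  have h4 := h2.unique (hs_congr' h3 fun n => by
    simp only [tt, cXp, cYp, add_zero]
    ring)
  rw [h4]
  rw [abs_le] at y1 y2 y3 y4 y5 y6 ⊢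
  constructor <;> linarith

/-- the bounds with the supremum norm -/
theorem sup : S_SUP := by
  intro hO J G α μ h hG g σ p δ hg hα hμ hδ
  have hJ := J_pos h
  refine ⟨?_, ?_, ?_⟩
  · intro u v w hu hv hw B s₁ s₂ a₁ a₂ hs h1 h2 ha hB
    have hB0 := B_nonneg hB
    have H1 := Hn_nonneg s₁ a₁ v
    have H2 := Hn_nonneg s₂ a₂ w
    have hc : ∀ γ : ℕ → ℝ, (∀ n, |γ n| ≤ g * (J n * ((Mn 8 n : ℝ) ^ σ * Real.log (Mn 8 n) ^ p))) →
        ∀ e₁ e₂ e₃ j₁ j₂ j₃, j₁ ≤ 1 → j₂ ≤ 1 → j₃ ≤ 1 →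
        Summable (tt G γ u v w e₁ e₂ e₃ j₁ j₂ j₃) ∧ |∑' n, tt G γ u v w e₁ e₂ e₃ j₁ j₂ j₃ n|
          ≤ 3 * g * 5 ^ (|s₁| + |s₂|) * (B * Hn s₁ a₁ v * Hn s₂ a₂ w) := by
      intro γ hγ e₁ e₂ e₃ j₁ j₂ j₃ l1 l2 l3
      exact tri hg hB0 hJ hs ha hγ (fun n => am_sup' h e₁ n l1 hu hB) H1 H2
        (am_l2 h s₁ h1 hv e₂ l2) (am_l2 h s₂ h2 hw e₃ l3) fun n => rfl
    refine (tri_bound hO h hG hu hv hw (hc α hα) (hc μ hμ)).trans ?_
    have e : 6 * (3 * g * 5 ^ (|s₁| + |s₂|) * (B * Hn s₁ a₁ v * Hn s₂ a₂ w))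
        = (18 * g) * 5 ^ (|s₁| + |s₂|) * (B * Hn s₁ a₁ v * Hn s₂ a₂ w) := by ring
    rw [e]
    exact mul_le_mul_of_nonneg_right (mul_le_mul_of_nonneg_right hδ (by positivity)) (by positivity)
  · intro u v w hu hv hw B s₁ s₂ a₁ a₂ hs h1 h2 ha hB
    have hB0 := B_nonneg hB
    have H1 := Hn_nonneg s₁ a₁ u
    have H2 := Hn_nonneg s₂ a₂ w
    have hc : ∀ γ : ℕ → ℝ, (∀ n, |γ n| ≤ g * (J n * ((Mn 8 n : ℝ) ^ σ * Real.log (Mn 8 n) ^ p))) →
        ∀ e₁ e₂ e₃ j₁ j₂ j₃, j₁ ≤ 1 → j₂ ≤ 1 → j₃ ≤ 1 →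
        Summable (tt G γ u v w e₁ e₂ e₃ j₁ j₂ j₃) ∧ |∑' n, tt G γ u v w e₁ e₂ e₃ j₁ j₂ j₃ n|
          ≤ 3 * g * 5 ^ (|s₁| + |s₂|) * (B * Hn s₁ a₁ u * Hn s₂ a₂ w) := by
      intro γ hγ e₁ e₂ e₃ j₁ j₂ j₃ l1 l2 l3
      exact tri hg hB0 hJ hs ha hγ (fun n => am_sup' h e₂ n l2 hv hB) H1 H2
        (am_l2 h s₁ h1 hu e₁ l1) (am_l2 h s₂ h2 hw e₃ l3) fun n => by unfold tt; ring
    refine (tri_bound hO h hG hu hv hw (hc α hα) (hc μ hμ)).trans ?_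
    have e : 6 * (3 * g * 5 ^ (|s₁| + |s₂|) * (B * Hn s₁ a₁ u * Hn s₂ a₂ w))
        = (18 * g) * 5 ^ (|s₁| + |s₂|) * (Hn s₁ a₁ u * B * Hn s₂ a₂ w) := by ring
    rw [e]
    exact mul_le_mul_of_nonneg_right (mul_le_mul_of_nonneg_right hδ (by positivity)) (by positivity)
  · intro u v w hu hv hw B s₁ s₂ a₁ a₂ hs h1 h2 ha hB
    have hB0 := B_nonneg hB
    have H1 := Hn_nonneg s₁ a₁ u
    have H2 := Hn_nonneg s₂ a₂ v
    have hc : ∀ γ : ℕ → ℝ, (∀ n, |γ n| ≤ g * (J n * ((Mn 8 n : ℝ) ^ σ * Real.log (Mn 8 n) ^ p))) →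
        ∀ e₁ e₂ e₃ j₁ j₂ j₃, j₁ ≤ 1 → j₂ ≤ 1 → j₃ ≤ 1 →
        Summable (tt G γ u v w e₁ e₂ e₃ j₁ j₂ j₃) ∧ |∑' n, tt G γ u v w e₁ e₂ e₃ j₁ j₂ j₃ n|
          ≤ 3 * g * 5 ^ (|s₁| + |s₂|) * (B * Hn s₁ a₁ u * Hn s₂ a₂ v) := by
      intro γ hγ e₁ e₂ e₃ j₁ j₂ j₃ l1 l2 l3
      exact tri hg hB0 hJ hs ha hγ (fun n => am_sup' h e₃ n l3 hw hB) H1 H2
        (am_l2 h s₁ h1 hu e₁ l1) (am_l2 h s₂ h2 hv e₂ l2) fun n => by unfold tt; ring
    refine (tri_bound hO h hG hu hv hw (hc α hα) (hc μ hμ)).trans ?_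
    have e : 6 * (3 * g * 5 ^ (|s₁| + |s₂|) * (B * Hn s₁ a₁ u * Hn s₂ a₂ v))
        = (18 * g) * 5 ^ (|s₁| + |s₂|) * (Hn s₁ a₁ u * Hn s₂ a₂ v * B) := by ring
    rw [e]
    exact mul_le_mul_of_nonneg_right (mul_le_mul_of_nonneg_right hδ (by positivity)) (by positivity)

end Pool.Agent.N42.NSP
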